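import Pool.Agent.Y768.SP.Main

/-!
# Solvable alternative and Jordan varieties in characteristic three need not be finitely based
-/

set_option autoImplicit false

namespace Pool.Agent.Results.MP_a43909_al.CharThree

universe u

open Pool.Agent.Y768.SP

/-- Over every field of characteristic three there is a set of identities such that every algebra
satisfying it is commutative, alternative, Jordan and solvable of index three, and the variety it
defines is not defined by any finite set of identities. -/
theorem result (F : Type u) [Field F] [CharP F 3] :
    ∃ S : Set (Idn F),
      (∀ (A : Type u) [NonUnitalNonAssocRing A] [Module F A] [IsScalarTower F A A]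
        [SMulCommClass F A A], InVariety F S A →
          IsCommutative A ∧ IsAlternative A ∧ IsJordanAlg A ∧ SolvableOfIndex F 3 A) ∧
      ¬ FinitelyBased F S := by
  refine ⟨⋃ n, Sid F n, ?_, main F⟩
  intro A _ _ _ _ hA
  exact base_props (S := ⋃ n, Sid F n) (fun f hf => Set.mem_iUnion.2 ⟨0, Or.inl hf⟩) hA

end Pool.Agent.Results.MP_a43909_al.CharThree
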